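import Pool.Agent.Helper43.Fr.Goals

/-! MASB: the master congruence at a zero of `q`. -/

namespace Pool.Agent.Helper43.Fr.PkMasb

open scoped PowerSeries Polynomial
open Polynomial

noncomputable section

theorem F1_map {R S : Type*} [CommRing R] [CommRing S] (f : R →+* S) (p : ℕ) :
    (F1 R p).map f = F1 S p := by
  simp [F1, Polynomial.map_sum, Polynomial.map_monomial]

theorem F1_eval {S : Type*} [CommRing S] (p : ℕ) (y : S) :
    (F1 S p).eval y = ∑ i ∈ Finset.range p, (aa i : S) * y ^ i := by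
  simp [F1, Polynomial.eval_finsetSum]

theorem homsum {S : Type*} [CommRing S] (p : ℕ) (b y : S) :
    ∑ i ∈ Finset.range p, (aa i : S) * (b ^ 2 * y) ^ i * b ^ (2 * (p - 1 - i)) =
      b ^ (2 * (p - 1)) * (F1 S p).eval y := by
  rw [F1_eval, Finset.mul_sum]
  refine Finset.sum_congr rfl fun i hi => ?_
  have h1 : i ≤ p - 1 := by
    have := Finset.mem_range.mp hi
    omega
  have h2 : 2 * (p - 1) = 2 * i + 2 * (p - 1 - i) := by omega
  rw [h2, pow_add, mul_pow, pow_mul]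
  ring

variable {p : ℕ} [Fact p.Prime]

theorem dvd_iff (x : ℤ_[p]) : (p : ℤ_[p]) ∣ x ↔ PadicInt.toZMod x = 0 := by
  rw [← RingHom.mem_ker, PadicInt.ker_toZMod, PadicInt.maximalIdeal_eq_span_p,
    Ideal.mem_span_singleton]

theorem isUnit_iff (x : ℤ_[p]) : IsUnit x ↔ PadicInt.toZMod x ≠ 0 := by
  rw [← not_iff_not, not_not, ← dvd_iff, ← mem_nonunits_iff, ← IsLocalRing.mem_maximalIdeal,
    PadicInt.maximalIdeal_eq_span_p, Ideal.mem_span_singleton]

theorem fermat_unit {x : ℤ_[p]} (hx : IsUnit x) : (p : ℤ_[p]) ∣ x ^ (p - 1) - 1 := by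
  rw [dvd_iff, map_sub, map_pow, map_one, sub_eq_zero]
  exact ZMod.pow_card_sub_one_eq_one ((isUnit_iff x).mp hx)

theorem fermat (x : ℤ_[p]) : (p : ℤ_[p]) ∣ x ^ p - x := by
  rw [dvd_iff, map_sub, map_pow, sub_eq_zero]
  exact ZMod.pow_card _

/-- Values of `T0`, `T1` at a zero of `q`. -/
theorem vals (C : Cur p) (T0 T1 : ℤ_[p][X]) (hT : IsTheta C T0 T1) (t0 ξ u : ℤ_[p])
    (hq : C.q.eval t0 = 0) (hx0 : C.x0.eval t0 = (C.al.eval t0) ^ 2 * ξ)
    (hu : C.x1.eval t0 = (C.al.eval t0) ^ 2 * u) :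
    T0.eval t0 = (C.w : ℤ_[p]) ^ ((p - 1) / 2) * (C.c0.eval t0) ^ ((p - 1) / 2) *
      ((C.al.eval t0) ^ (2 * (p - 1)) * (F1 ℤ_[p] p).eval ξ) ∧
    T1.eval t0 = (C.w : ℤ_[p]) ^ ((p - 1) / 2) * (C.al.eval t0) ^ (2 * (p - 1)) *
      (((p - 1) / 2 : ℕ) * (C.c0.eval t0) ^ ((p - 1) / 2 - 1) * C.c1.eval t0 *
          (F1 ℤ_[p] p).eval ξ
        + (C.c0.eval t0) ^ ((p - 1) / 2) *
          ((Polynomial.derivative (F1 ℤ_[p] p)).eval ξ * u)) := by
  set ι : ℤ_[p] →+* DualNumber ℤ_[p] := TrivSqZeroExt.inlHom ℤ_[p] ℤ_[p] with hι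
  set ε : DualNumber ℤ_[p] := DualNumber.eps with hε
  have hε2 : ε ^ 2 = 0 := by rw [pow_two]; exact DualNumber.eps_mul_eps
  have hext : ∀ a b a' b' : ℤ_[p], ι a + ι b * ε = ι a' + ι b' * ε → a = a' ∧ b = b' := by
    intro a b a' b' h
    have h1 := congrArg TrivSqZeroExt.fst h
    have h2 := congrArg TrivSqZeroExt.snd h
    simp [hι, hε] at h1 h2
    exact ⟨h1, h2⟩
  have h1 := hT (DualNumber ℤ_[p]) (ι.comp (Polynomial.evalRingHom t0)) ε (by
    rw [hε2, RingHom.comp_apply, Polynomial.coe_evalRingHom, hq, map_zero])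
  simp only [RingHom.comp_apply, Polynomial.coe_evalRingHom] at h1
  have h2 : ι (C.x0.eval t0) + ι (C.x1.eval t0) * ε =
      (ι (C.al.eval t0)) ^ 2 * (ι ξ + ι u * ε) := by
    rw [hx0, hu]
    simp only [map_mul, map_pow]
    ring
  rw [h2, homsum] at h1
  have h3 : (ι u * ε) ^ 2 = 0 := by rw [mul_pow, hε2, mul_zero]
  have h4 : (ι (C.c1.eval t0) * ε) ^ 2 = 0 := by rw [mul_pow, hε2, mul_zero]
  have h5 := Polynomial.eval_add_of_sq_eq_zero (F1 (DualNumber ℤ_[p]) p) (ι ξ) (ι u * ε) h3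
  rw [← F1_map ι, Polynomial.derivative_map, Polynomial.eval_map_apply,
    Polynomial.eval_map_apply, F1_map ι] at h5
  have h6 := Polynomial.eval_add_of_sq_eq_zero
    ((Polynomial.X : (DualNumber ℤ_[p])[X]) ^ ((p - 1) / 2)) (ι (C.c0.eval t0))
    (ι (C.c1.eval t0) * ε) h4
  simp only [Polynomial.eval_pow, Polynomial.eval_X, Polynomial.derivative_X_pow,
    Polynomial.eval_mul, Polynomial.eval_C] at h6
  rw [h5, h6] at h1
  have h7 := hext (T0.eval t0) (T1.eval t0)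
    ((C.w : ℤ_[p]) ^ ((p - 1) / 2) * (C.c0.eval t0) ^ ((p - 1) / 2) *
      ((C.al.eval t0) ^ (2 * (p - 1)) * (F1 ℤ_[p] p).eval ξ))
    ((C.w : ℤ_[p]) ^ ((p - 1) / 2) * (C.al.eval t0) ^ (2 * (p - 1)) *
      (((p - 1) / 2 : ℕ) * (C.c0.eval t0) ^ ((p - 1) / 2 - 1) * C.c1.eval t0 *
          (F1 ℤ_[p] p).eval ξ
        + (C.c0.eval t0) ^ ((p - 1) / 2) *
          ((Polynomial.derivative (F1 ℤ_[p] p)).eval ξ * u))) (by
    rw [h1]
    simp only [map_mul, map_pow, map_add, map_natCast]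
    linear_combination ((C.w : DualNumber ℤ_[p]) ^ ((p - 1) / 2) *
      (((((p - 1) / 2 : ℕ) : DualNumber ℤ_[p])) * ι (C.c0.eval t0) ^ ((p - 1) / 2 - 1) *
        ι (C.c1.eval t0)) * ι (C.al.eval t0) ^ (2 * (p - 1)) *
        ι ((Polynomial.derivative (F1 ℤ_[p] p)).eval ξ) * ι u) * hε2)
  exact h7

theorem thP_eq {R : Type*} [CommRing R] (f : R[X]) : thP f = X * derivative f := rfl

theorem eval_thP {R : Type*} [CommRing R] (f : R[X]) (t : R) :
    (thP f).eval t = t * (derivative f).eval t := by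
  rw [thP_eq, Polynomial.eval_mul, Polynomial.eval_X]

/-- The truncated ring `K[s]/s³`. -/
theorem trunc (K : Type) [Field K] : ∃ (S : Type) (_ : CommRing S) (ι : K →+* S) (s : S)
    (π : S →+* K), s ^ 3 = 0 ∧ (∀ a, π (ι a) = a) ∧ π s = 0 ∧
      (∀ y : S, s ^ 2 * y = s ^ 2 * ι (π y)) ∧
      ∀ a b : K, s ^ 2 * ι a = s ^ 2 * ι b → a = b := by
  refine ⟨K[X] ⧸ Ideal.span {(X : K[X]) ^ 3}, inferInstance,
    (Ideal.Quotient.mk _).comp Polynomial.C, Ideal.Quotient.mk _ X,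
    Ideal.Quotient.lift _ (Polynomial.evalRingHom 0) ?_, ?_, ?_, ?_, ?_, ?_⟩
  · intro a ha
    obtain ⟨b, rfl⟩ := Ideal.mem_span_singleton.mp ha
    simp
  · rw [← map_pow]
    exact Ideal.Quotient.eq_zero_iff_mem.mpr (Ideal.mem_span_singleton_self _)
  · intro a
    simp
  · simp
  · intro y
    obtain ⟨f, rfl⟩ := Ideal.Quotient.mk_surjective y
    rw [Ideal.Quotient.lift_mk, RingHom.comp_apply, ← map_pow, ← map_mul, ← map_mul,
      Ideal.Quotient.eq, Ideal.mem_span_singleton, Polynomial.coe_evalRingHom]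
    obtain ⟨g, hg⟩ : (X : K[X]) ∣ f - Polynomial.C (f.eval 0) := by
      rw [Polynomial.X_dvd_iff, Polynomial.coeff_sub, Polynomial.coeff_zero_eq_eval_zero]
      simp
    exact ⟨g, by linear_combination (X : K[X]) ^ 2 * hg⟩
  · intro a b h
    rw [RingHom.comp_apply, RingHom.comp_apply, ← map_pow, ← map_mul, ← map_mul,
      Ideal.Quotient.eq, Ideal.mem_span_singleton, Polynomial.X_pow_dvd_iff] at h
    have h1 := h 2 (by norm_num)
    rw [← mul_sub, ← Polynomial.C_sub, Polynomial.coeff_mul_C, Polynomial.coeff_X_pow] at h1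
    simpa [sub_eq_zero] using h1

/-- `T0` has a simple zero. -/
theorem simple (C : Cur p) (T0 T1 k : ℤ_[p][X]) (hT : IsTheta C T0 T1)
    (hk : T1 = (p : ℤ_[p][X]) * k) (t0 ξ : ℤ_[p])
    (hq : C.q.eval t0 = 0) (hq1 : IsUnit ((thP C.q).eval t0)) (hal : IsUnit (C.al.eval t0))
    (hc0 : IsUnit (C.c0.eval t0)) (hx1 : IsUnit (C.x1.eval t0))
    (hx0 : C.x0.eval t0 = (C.al.eval t0) ^ 2 * ξ)
    (hT0 : (T0.map (PadicInt.toZMod (p := p))).eval (PadicInt.toZMod t0) = 0)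
    (H : (ZMod p)[X]) (hH : F1 (ZMod p) p = (X - Polynomial.C (PadicInt.toZMod ξ)) ^ 2 * H)
    (hH0 : H.eval (PadicInt.toZMod ξ) ≠ 0) :
    (derivative (T0.map (PadicInt.toZMod (p := p)))).eval (PadicInt.toZMod t0) ≠ 0 := by
  obtain ⟨S, _, ι, s, π, hs3, hπι, hπs, hkey, hcan⟩ := trunc (ZMod p)
  set θ := (PadicInt.toZMod (p := p)) with hθ
  set τ := θ t0 with hτ
  have hem : ∀ f : ℤ_[p][X], (f.map θ).eval τ = θ (f.eval t0) := fun f =>
    Polynomial.eval_map_apply _ _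
  have hdq : (derivative (C.q.map θ)).eval τ ≠ 0 := by
    rw [Polynomial.derivative_map, hem]
    rw [eval_thP] at hq1
    exact (isUnit_iff _).mp (isUnit_of_mul_isUnit_right hq1)
  set c := ((derivative (C.q.map θ)).eval τ)⁻¹ with hc
  have hs4 : (ι c * s ^ 2) ^ 2 = 0 := by
    linear_combination (ι c) ^ 2 * s * hs3
  set φ : ℤ_[p][X] →+* S := Polynomial.eval₂RingHom (ι.comp θ) (ι τ + ι c * s ^ 2) with hφ
  have hφf : ∀ f : ℤ_[p][X], φ f = ι ((f.map θ).eval τ) +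
      ι ((derivative (f.map θ)).eval τ) * (ι c * s ^ 2) := by
    intro f
    have h1 : φ f = ((f.map θ).map ι).eval (ι τ + ι c * s ^ 2) := by
      rw [hφ, Polynomial.coe_eval₂RingHom, Polynomial.map_map, Polynomial.eval_map]
    rw [h1, Polynomial.eval_add_of_sq_eq_zero _ _ _ hs4, Polynomial.derivative_map,
      Polynomial.eval_map_apply ι τ, Polynomial.eval_map_apply ι τ]
  have hπφ : ∀ f : ℤ_[p][X], π (φ f) = (f.map θ).eval τ := by
    intro f
    rw [hφf, map_add, map_mul, map_mul, map_pow, hπs, hπι]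
    ring
  have hφq : s ^ 2 = φ C.q := by
    rw [hφf, hem, hq, map_zero, map_zero, zero_add, ← mul_assoc, ← map_mul, hc,
      mul_inv_cancel₀ hdq, map_one, one_mul]
  have h1 := hT S φ s hφq
  have hp0 : (p : S) = 0 := by
    have : (p : S) = ι (p : ZMod p) := by rw [map_natCast]
    rw [this, CharP.cast_eq_zero, map_zero]
  have hT1 : φ T1 = 0 := by
    rw [hk, map_mul, map_natCast, hp0, zero_mul]
  -- the inverse of `φ al`
  set b := (θ (C.al.eval t0))⁻¹ with hb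
  have hab : θ (C.al.eval t0) * b = 1 := mul_inv_cancel₀ ((isUnit_iff _).mp hal)
  obtain ⟨β, hβ, hπβ⟩ : ∃ β : S, φ C.al * β = 1 ∧ π β = b := by
    refine ⟨ι b - ι (b ^ 2 * (derivative (C.al.map θ)).eval τ) * (ι c * s ^ 2), ?_, ?_⟩
    · rw [hφf, hem]
      have h2 : ι (θ (C.al.eval t0)) * ι b = 1 := by rw [← map_mul, hab, map_one]
      simp only [map_mul, map_pow]
      linear_combination (1 - ι b * ι ((derivative (C.al.map θ)).eval τ) * (ι c * s ^ 2)) * h2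
        - (ι b) ^ 2 * (ι ((derivative (C.al.map θ)).eval τ)) ^ 2 * hs4
    · simp only [map_sub, map_mul, map_pow, hπs, hπι]
      ring
  set gd := (derivative ((C.x0 - Polynomial.C ξ * C.al ^ 2).map θ)).eval τ with hgd
  have hx0' : φ C.x0 = ι (θ ξ) * (φ C.al) ^ 2 + ι gd * (ι c * s ^ 2) := by
    have h2 := hφf (C.x0 - Polynomial.C ξ * C.al ^ 2)
    rw [hem] at h2
    have h3 : (C.x0 - Polynomial.C ξ * C.al ^ 2).eval t0 = 0 := by
      simp only [Polynomial.eval_sub, Polynomial.eval_mul, Polynomial.eval_pow,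
        Polynomial.eval_C, hx0]
      ring
    rw [h3, map_zero, map_zero, zero_add, map_sub, map_mul, map_pow] at h2
    have h4 : φ (Polynomial.C ξ) = ι (θ ξ) := by
      rw [hφ, Polynomial.coe_eval₂RingHom, Polynomial.eval₂_C, RingHom.comp_apply]
    rw [h4] at h2
    rw [← h2]
    ring
  set z := (ι gd * ι c * s + φ C.x1) * β ^ 2 with hz
  set y := (φ C.x0 + φ C.x1 * s) * β ^ 2 with hy
  have hy1 : φ C.x0 + φ C.x1 * s = (φ C.al) ^ 2 * y := by
    rw [hy]
    linear_combination (-(φ C.x0 + φ C.x1 * s) * (1 + φ C.al * β)) * hβ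
  have hy2 : y - ι (θ ξ) = s * z := by
    rw [hy, hz, hx0']
    linear_combination (ι (θ ξ) * (1 + φ C.al * β)) * hβ
  have hπy : π y = θ ξ := by
    have h2 : y = ι (θ ξ) + s * z := by rw [← hy2]; ring
    rw [h2, map_add, map_mul, hπs, zero_mul, add_zero, hπι]
  have hFy : (F1 S p).eval y = s ^ 2 * (z ^ 2 * (H.map ι).eval y) := by
    rw [← F1_map ι, hH, Polynomial.map_mul, Polynomial.map_pow, Polynomial.map_sub,
      Polynomial.map_X, Polynomial.map_C, Polynomial.eval_mul, Polynomial.eval_pow,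
      Polynomial.eval_sub, Polynomial.eval_X, Polynomial.eval_C, hy2]
    ring
  have hHy : π ((H.map ι).eval y) = H.eval (θ ξ) := by
    have h2 : π.comp ι = RingHom.id (ZMod p) := RingHom.ext hπι
    rw [← Polynomial.eval_map_apply π y, Polynomial.map_map, h2, Polynomial.map_id, hπy]
  rw [hT1, zero_mul, add_zero, hy1, homsum, hFy, hφf T0, hT0, map_zero, zero_add] at h1
  set Z := (C.w : S) ^ ((p - 1) / 2) * (φ C.c0 + φ C.c1 * s) ^ ((p - 1) / 2) *
      (φ C.al ^ (2 * (p - 1)) * (z ^ 2 * (H.map ι).eval y)) with hZ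
  have h2 : s ^ 2 * ι ((derivative (T0.map θ)).eval τ * c) = s ^ 2 * ι (π Z) := by
    rw [← hkey, map_mul, hZ]
    linear_combination h1
  have h3 := hcan _ _ h2
  have hw : (C.w : ZMod p) ≠ 0 := by
    intro h
    exact C.hw ((ZMod.natCast_eq_zero_iff _ _).mp h)
  have h4 : π Z ≠ 0 := by
    rw [hZ]
    simp only [map_mul, map_pow, map_add, map_natCast, hπφ, hπs, hHy, hem, hz, hπβ, hπι]
    have e1 := (isUnit_iff _).mp hc0
    have e2 := (isUnit_iff _).mp hal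
    have e3 := (isUnit_iff _).mp hx1
    have e4 : b ≠ 0 := inv_ne_zero e2
    simp only [mul_zero, add_zero, zero_add]
    refine mul_ne_zero (mul_ne_zero (pow_ne_zero _ hw) (pow_ne_zero _ e1))
      (mul_ne_zero (pow_ne_zero _ e2) (mul_ne_zero (pow_ne_zero _ (mul_ne_zero e3
        (pow_ne_zero _ e4))) hH0))
  intro h5
  rw [h5, zero_mul] at h3
  exact h4 h3.symm

/-- The derivative of the master congruence at `t0`. -/
theorem claim (C : Cur p) (T0 k : ℤ_[p][X])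
    (hdiv : (p : ℤ_[p][X]) ∣ C.ln * C.al ^ (p - 1) * T0 ^ 2
        - C.c2 ^ ((p - 1) / 2) * C.al ^ (2 * (p - 1)) * C.ln ^ p * T0
        + 2 * C.al ^ p * k * C.q * thP T0
        - C.al ^ p * T0 * (2 * C.q * thP k + k * thP C.q)) (t0 : ℤ_[p])
    (hq : C.q.eval t0 = 0) (hal : IsUnit (C.al.eval t0))
    (hT0 : (T0.map (PadicInt.toZMod (p := p))).eval (PadicInt.toZMod t0) = 0)
    (hsim : (derivative (T0.map (PadicInt.toZMod (p := p)))).eval (PadicInt.toZMod t0) ≠ 0) :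
    (p : ℤ_[p]) ∣ C.al.eval t0 * k.eval t0 * (thP C.q).eval t0
      - (C.c2.eval t0) ^ ((p - 1) / 2) * C.ln.eval t0 := by
  set θ := (PadicInt.toZMod (p := p)) with hθ
  set τ := θ t0 with hτ
  have hem : ∀ f : ℤ_[p][X], (f.map θ).eval τ = θ (f.eval t0) := fun f =>
    Polynomial.eval_map_apply _ _
  have hth : ∀ f : ℤ_[p][X], (thP f).map θ = thP (f.map θ) := by
    intro f
    rw [thP_eq, thP_eq, Polynomial.map_mul, Polynomial.map_X, Polynomial.derivative_map]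
  obtain ⟨R, hR⟩ := hdiv
  have h1 := congrArg (fun f : ℤ_[p][X] => f.map θ) hR
  have hp0 : ((p : ℤ_[p][X])).map θ = 0 := by
    rw [Polynomial.map_natCast, CharP.cast_eq_zero]
  simp only [Polynomial.map_mul, hp0, zero_mul, Polynomial.map_sub, Polynomial.map_add,
    Polynomial.map_pow, Polynomial.map_ofNat, hth] at h1
  have h2 := congrArg (fun f : (ZMod p)[X] => (derivative f).eval τ) h1
  have hq0 : (C.q.map θ).eval τ = 0 := by rw [hem, hq, map_zero]
  have e1 : ((2 : (ZMod p)[X])).eval τ = 2 := by simp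
  have e2 : derivative (2 : (ZMod p)[X]) = 0 := by simp
  simp only [Polynomial.derivative_mul, Polynomial.derivative_add, Polynomial.derivative_sub,
    Polynomial.derivative_zero, Polynomial.eval_mul, Polynomial.eval_add, Polynomial.eval_sub,
    Polynomial.eval_pow, pow_two, hT0, hq0, eval_thP, mul_zero, zero_mul, add_zero, zero_add,
    Polynomial.eval_zero, e1, e2] at h2
  have ha : θ (C.al.eval t0) ≠ 0 := (isUnit_iff _).mp hal
  have ha1 : (θ (C.al.eval t0)) ^ (p - 1) = 1 := ZMod.pow_card_sub_one_eq_one ha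
  have ha2 : (θ (C.al.eval t0)) ^ (2 * (p - 1)) = 1 := by
    rw [mul_comm, pow_mul, ha1, one_pow]
  have ha3 : (θ (C.al.eval t0)) ^ p = θ (C.al.eval t0) := ZMod.pow_card _
  have hL : (θ (C.ln.eval t0)) ^ p = θ (C.ln.eval t0) := ZMod.pow_card _
  rw [dvd_iff, ← hθ]
  have hQ : θ ((thP C.q).eval t0) = τ * (derivative (C.q.map θ)).eval τ := by
    rw [← hem, hth, eval_thP]
  rw [map_sub, map_mul, map_mul, map_mul, map_pow, hQ]
  simp only [hem, ha2, ha3, hL] at h2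
  have h3 : (derivative (T0.map θ)).eval τ * (θ (C.al.eval t0) * θ (k.eval t0) *
      (τ * (derivative (C.q.map θ)).eval τ) -
      θ (C.c2.eval t0) ^ ((p - 1) / 2) * θ (C.ln.eval t0)) = 0 := by
    linear_combination h2
  exact (mul_eq_zero.mp h3).resolve_left hsim

theorem masb : G_TH → G_MASA → G_MUL → G_MASB := by
  intro hTH hMA hMUL p _ hp3 C t0 ξ hq hq1 hal hc0 hx1 hDD hx0
  obtain ⟨T0, T1, hT⟩ := hTH p hp3 C
  obtain ⟨k, hk, hdiv⟩ := hMA p hp3 C T0 T1 hT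
  obtain ⟨ai, hai⟩ := hal.exists_right_inv
  set u := C.x1.eval t0 * ai ^ 2 with hu'
  have hu : C.x1.eval t0 = (C.al.eval t0) ^ 2 * u := by
    rw [hu']
    linear_combination (-(C.x1.eval t0) * (1 + C.al.eval t0 * ai)) * hai
  obtain ⟨hv0, hv1⟩ := vals C T0 T1 hT t0 ξ u hq hx0 hu
  have hTk : T1.eval t0 = (p : ℤ_[p]) * k.eval t0 := by
    rw [hk, Polynomial.eval_mul, Polynomial.eval_natCast]
  have hE : C.al.eval t0 * (C.c1.eval t0 * (thP C.q).eval t0) =
      2 * C.ln.eval t0 * C.c0.eval t0 := by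
    have h := congrArg (fun f : ℤ_[p][X] => f.eval t0) C.hlnE
    simp only [Polynomial.eval_mul, Polynomial.eval_add, hq, Polynomial.eval_ofNat] at h
    linear_combination h
  have hodd : 2 * ((p - 1) / 2) = p - 1 := by
    have h1 : p % 2 = 1 := by
      rcases (Fact.out : p.Prime).eq_two_or_odd with h | h
      · omega
      · exact h
    omega
  have h2h : (2 : ℤ_[p]) * (((p - 1) / 2 : ℕ) : ℤ_[p]) = (p : ℤ_[p]) - 1 := by
    have h1 : ((2 * ((p - 1) / 2) : ℕ) : ℤ_[p]) = ((p - 1 : ℕ) : ℤ_[p]) := by rw [hodd]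
    rw [Nat.cast_mul, Nat.cast_sub (by omega)] at h1
    exact_mod_cast h1
  have hc0h : (C.c0.eval t0) ^ ((p - 1) / 2) =
      (C.c0.eval t0) ^ ((p - 1) / 2 - 1) * C.c0.eval t0 := by
    rw [← pow_succ]
    congr 1
    omega
  obtain ⟨e, he⟩ : ∃ e : ℤ_[p], (C.al.eval t0) ^ (2 * (p - 1)) = 1 + (p : ℤ_[p]) * e := by
    obtain ⟨e, he⟩ := fermat_unit hal
    refine ⟨2 * e + (p : ℤ_[p]) * e ^ 2, ?_⟩
    have h1 : (C.al.eval t0) ^ (p - 1) = 1 + (p : ℤ_[p]) * e := by linear_combination he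
    rw [mul_comm 2, pow_mul, h1]
    ring
  set θ := (PadicInt.toZMod (p := p)) with hθ
  have hpp : θ (p : ℤ_[p]) = 0 := by rw [map_natCast, CharP.cast_eq_zero]
  set a := C.al.eval t0 with ha
  set c := C.c0.eval t0 with hc
  set c1 := C.c1.eval t0 with hc1
  set L := C.ln.eval t0 with hL
  set c2 := (C.c2.eval t0) ^ ((p - 1) / 2) with hc2
  set K := k.eval t0 with hK
  set Q := (thP C.q).eval t0 with hQ
  set F := (F1 ℤ_[p] p).eval ξ with hF
  set F' := (Polynomial.derivative (F1 ℤ_[p] p)).eval ξ with hF'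
  set A := ((C.w : ℤ_[p]) * c) ^ ((p - 1) / 2) with hA
  have hA' : A = (C.w : ℤ_[p]) ^ ((p - 1) / 2) * c ^ ((p - 1) / 2) := by rw [hA, mul_pow]
  have E3 : (1 + (p : ℤ_[p]) * e) * (A * (F' * u * a * Q - L * F) + (p : ℤ_[p]) * A * L * F) =
      (p : ℤ_[p]) * (a * K * Q) := by
    have h1 : a * Q * T1.eval t0 = (p : ℤ_[p]) * (a * K * Q) := by
      rw [hTk]; ring
    rw [← h1, hv1, he, hA', hc0h]
    linear_combination (-(C.w : ℤ_[p]) ^ ((p - 1) / 2) * (1 + (p : ℤ_[p]) * e) *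
      (((p - 1) / 2 : ℕ) : ℤ_[p]) * c ^ ((p - 1) / 2 - 1) * F) * hE
      - ((C.w : ℤ_[p]) ^ ((p - 1) / 2) * (1 + (p : ℤ_[p]) * e) *
      c ^ ((p - 1) / 2 - 1) * F * L * c) * h2h
  rw [hu]
  have hθa : θ a ≠ 0 := (isUnit_iff _).mp hal
  have hθc : θ c ≠ 0 := (isUnit_iff _).mp hc0
  have hθw : θ (C.w : ℤ_[p]) ≠ 0 := by
    rw [map_natCast]
    intro h
    exact C.hw ((ZMod.natCast_eq_zero_iff _ _).mp h)
  have hθA : θ A ≠ 0 := by
    rw [hA, map_pow, map_mul]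
    exact pow_ne_zero _ (mul_ne_zero hθw hθc)
  have ha1 : (θ a) ^ (p - 1) = 1 := ZMod.pow_card_sub_one_eq_one hθa
  have ha2 : (θ a) ^ (2 * (p - 1)) = 1 := by rw [mul_comm, pow_mul, ha1, one_pow]
  have ha3 : (θ a) ^ p = θ a := ZMod.pow_card _
  have hL3 : (θ L) ^ p = θ L := ZMod.pow_card _
  have hθT : θ (T0.eval t0) = θ A * θ F := by
    rw [hv0, hA']
    simp only [map_mul, map_pow, ha2]
    ring
  have hc2θ : θ (C.c2.eval t0) ^ ((p - 1) / 2) = θ c2 := by rw [hc2, map_pow]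
  clear_value A
  constructor
  · intro hFu
    have hθF : θ F ≠ 0 := fun h => hFu ((dvd_iff _).mpr h)
    obtain ⟨z, hz⟩ : (p : ℤ_[p]) ∣ L * A * F - c2 * L - a * K * Q := by
      have h1 := map_dvd (Polynomial.evalRingHom t0) hdiv
      simp only [Polynomial.coe_evalRingHom, Polynomial.eval_mul, Polynomial.eval_add,
        Polynomial.eval_sub, Polynomial.eval_pow, Polynomial.eval_natCast, hq,
        Polynomial.eval_ofNat] at h1
      rw [dvd_iff] at h1 ⊢
      simp only [map_mul, map_sub, map_add, map_pow, map_zero, ← hθ, ← ha, ← hL, ← hK, ← hQ,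
        ha1, ha2, ha3, hL3, hθT, hc2θ] at h1 ⊢
      have h2 : θ A * θ F * (θ L * θ A * θ F - θ c2 * θ L - θ a * θ K * θ Q) = 0 := by
        linear_combination h1
      exact (mul_eq_zero.mp h2).resolve_left (mul_ne_zero hθA hθF)
    refine ⟨-a ^ 2 * (z + e * (-c2 * L - (p : ℤ_[p]) * z
      - e * (A * (F' * u * a * Q - L * F) + (p : ℤ_[p]) * A * L * F)) + e * A * L * F), ?_⟩
    have E4 : (1 + (p : ℤ_[p]) * e) * (A * (F' * u * a * Q - L * F) + (p : ℤ_[p]) * A * L * F) =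
      (p : ℤ_[p]) * (L * A * F - c2 * L - (p : ℤ_[p]) * z) := by
      rw [E3, ← hz]; ring
    linear_combination a ^ 2 * (1 - (p : ℤ_[p]) * e) * E4
  · rintro ⟨f, hf⟩
    have hθF : θ F = 0 := by rw [hf, map_mul, hpp, zero_mul]
    have hFbar : (F1 (ZMod p) p).eval (θ ξ) = 0 := by
      rw [← F1_map θ, Polynomial.eval_map_apply, ← hF, hθF]
    have hDbar : DD (θ ξ) ≠ 0 := by
      have h1 := (isUnit_iff _).mp hDD
      rw [← hθ] at h1
      have h2 : θ (DD ξ) = DD (θ ξ) := by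
        simp only [DD, map_sub, map_one, map_mul, map_pow, map_ofNat]
      rwa [h2] at h1
    obtain ⟨hd1, hd2⟩ := (hMUL p hp3 (ZMod p) (θ ξ) hFbar).1 hDbar
    obtain ⟨G, hG⟩ : (X - Polynomial.C (θ ξ)) ∣ F1 (ZMod p) p :=
      Polynomial.dvd_iff_isRoot.mpr hFbar
    have hG0 : G.eval (θ ξ) = 0 := by
      rw [hG] at hd1
      simpa [Polynomial.derivative_mul] using hd1
    obtain ⟨H, hH⟩ : (X - Polynomial.C (θ ξ)) ∣ G := Polynomial.dvd_iff_isRoot.mpr hG0
    have hFH : F1 (ZMod p) p = (X - Polynomial.C (θ ξ)) ^ 2 * H := by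
      rw [hG, hH]; ring
    have hH0 : H.eval (θ ξ) ≠ 0 := by
      intro h
      apply hd2
      rw [hFH]
      simp [Polynomial.derivative_mul, pow_two, h]
    have hT0b : (T0.map θ).eval (θ t0) = 0 := by
      rw [Polynomial.eval_map_apply, hθT, hθF, mul_zero]
    have hsim := simple C T0 T1 k hT hk t0 ξ hq hq1 hal hc0 hx1 hx0 hT0b H hFH hH0
    obtain ⟨z, hz⟩ := claim C T0 k hdiv t0 hq hal hT0b hsim
    have E4 : (1 + (p : ℤ_[p]) * e) * (A * (F' * u * a * Q - L * F) + (p : ℤ_[p]) * A * L * F) =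
      (p : ℤ_[p]) * (c2 * L + (p : ℤ_[p]) * z) := by
      rw [E3, ← hz]; ring
    refine ⟨a ^ 2 * (z - A * L * f - e * (c2 * L + (p : ℤ_[p]) * z - (p : ℤ_[p]) * A * L * f
      - e * (A * (F' * u * a * Q - L * F) + (p : ℤ_[p]) ^ 2 * A * L * f))
      - (p : ℤ_[p]) * e * A * L * f), ?_⟩
    rw [hf] at E4 ⊢
    linear_combination a ^ 2 * (1 - (p : ℤ_[p]) * e) * E4

end

end Pool.Agent.Helper43.Fr.PkMasb
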